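import Pool.Agent.Q65.GPe

/-!
Radial data on the real projective space `P^d(ℝ)`, `d ≥ 2`: the maximal estimate fails for the
Schrödinger, Boussinesq and beam equations, every `p ≥ 1` and every regularity `α < 1/4`.

Radial functions are written as functions of the geodesic distance `θ ∈ (0, π/2)` to the base
point. The normalised measure is the probability measure proportional to `sin θ ^ (d-1) dθ`; the
zonal eigenfunctions are the even Gegenbauer polynomials in `cos θ`.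
-/

set_option autoImplicit false

namespace Pool.Agent.Results.MP_6a2c25_an.MaximalFailure

open MeasureTheory Real
open scoped ENNReal NNReal

/-- Coefficients of the even Gegenbauer polynomial of degree `2k` and index `(d-1)/2`, normalised
to take the value `1` at `0`. -/
noncomputable def coef (d k : ℕ) : ℕ → ℝ
  | 0 => 1
  | j + 1 => -(coef d k j * ((2 * k - 2 * j) * (2 * k + 2 * j + d - 1))) /
      ((2 * j + 1) * (2 * j + 2))

/-- The zonal eigenfunction of degree `2k` on `P^d(ℝ)`, at geodesic distance `θ` from the base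
point. -/
noncomputable def zonal (d k : ℕ) (θ : ℝ) : ℝ :=
  ∑ j ∈ Finset.range (k + 1), coef d k j * cos θ ^ (2 * j)

/-- Its frequency: the square root of the eigenvalue `2k(2k+d-1)` of the Laplacian. -/
noncomputable def freq (d k : ℕ) : ℝ := √(2 * k * (2 * k + d - 1))

/-- The distribution of the geodesic distance, before normalisation. -/
noncomputable def rawMeasure (d : ℕ) : Measure ℝ :=
  (volume.restrict (Set.Ioo 0 (π / 2))).withDensity fun θ => ENNReal.ofReal (sin θ ^ (d - 1))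

/-- The distribution of the geodesic distance to the base point under the normalised volume. -/
noncomputable def radialMeasure (d : ℕ) : Measure ℝ :=
  (rawMeasure d Set.univ)⁻¹ • rawMeasure d

/-- The three dispersion relations: Schrödinger, Boussinesq, beam. -/
noncomputable def symbols : Set (ℝ → ℝ) :=
  {fun r => r ^ 2, fun r => r * √(1 + r ^ 2), fun r => √(1 + r ^ 4)}

/-- The solution at time `t` with initial datum `∑ k ∈ s, c k • zonal d k`. -/
noncomputable def evolve (d : ℕ) (ψ : ℝ → ℝ) (s : Finset ℕ) (c : ℕ → ℂ) (t θ : ℝ) : ℂ :=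
  ∑ k ∈ s, c k * Complex.exp (-(Complex.I * (t * ψ (freq d k) : ℝ))) * zonal d k θ

/-- The function `(I - Δ)^(α/2) f` for `f = ∑ k ∈ s, c k • zonal d k`. -/
noncomputable def bessel (d : ℕ) (α : ℝ) (s : Finset ℕ) (c : ℕ → ℂ) (θ : ℝ) : ℂ :=
  ∑ k ∈ s, c k * ((1 + freq d k ^ 2) ^ (α / 2) : ℝ) * zonal d k θ

/-- The radial maximal estimate, required only for finite combinations of zonal functions. -/
def MaximalEstimate (d : ℕ) (ψ : ℝ → ℝ) (p : ℝ≥0∞) (α : ℝ) : Prop :=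
  ∃ C : ℝ≥0, ∀ (s : Finset ℕ) (c : ℕ → ℂ),
    eLpNorm (fun θ => ⨆ t ∈ Set.Ico (0:ℝ) (2 * π), ‖evolve d ψ s c t θ‖ₑ) p (radialMeasure d) ≤
      C * eLpNorm (bessel d α s c) 2 (radialMeasure d)

lemma coef_eq (d k j : ℕ) : coef d k j = Q65.GP.coef d k j := by
  induction j with
  | zero => rfl
  | succ j ih => rw [coef, Q65.GP.coef, ih]

lemma zonal_eq (d k : ℕ) (θ : ℝ) : zonal d k θ = Q65.GP.u d k θ := by
  unfold zonal Q65.GP.u Q65.GP.p0
  exact Finset.sum_congr rfl fun j _ => by rw [coef_eq]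

lemma zonal_fun_eq (d k : ℕ) : zonal d k = Q65.GP.u d k := funext (zonal_eq d k)

lemma freq_eq (d k : ℕ) : freq d k = √(Q65.GP.mu2 d k) := rfl

lemma freq_sq (e k : ℕ) : freq (e + 2) k ^ 2 = Q65.GP.mu2 (e + 2) k := by
  rw [freq_eq, sq_sqrt (Q65.GP.mu2_nonneg e k)]

lemma symbols_bound {ψ : ℝ → ℝ} (hψ : ψ ∈ symbols) (m : ℝ) (hm : 0 ≤ m) :
    |ψ (√m) - m| ≤ 1 := by
  have h2 : √m ^ 2 = m := sq_sqrt hm
  have h4 : √m ^ 4 = m ^ 2 := by
    rw [show √m ^ 4 = (√m ^ 2) ^ 2 by ring, h2]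
  rcases hψ with rfl | rfl | rfl
  · simp only [h2, sub_self, abs_zero, zero_le_one]
  · simp only [h2]
    rw [← sqrt_mul hm]
    have h5 : m ≤ √(m * (1 + m)) := le_sqrt_of_sq_le (by nlinarith)
    have h6 : √(m * (1 + m)) ≤ m + 1 := sqrt_le_iff.2 ⟨by linarith, by nlinarith⟩
    rw [abs_le]
    constructor <;> linarith
  · simp only [h4]
    have h5 : m ≤ √(1 + m ^ 2) := le_sqrt_of_sq_le (by nlinarith)
    have h6 : √(1 + m ^ 2) ≤ m + 1 := sqrt_le_iff.2 ⟨by linarith, by nlinarith⟩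
    rw [abs_le]
    constructor <;> linarith

/-! ### the measure -/

lemma raw_univ_lt (d : ℕ) : rawMeasure d Set.univ < ∞ := by
  unfold rawMeasure
  rw [withDensity_apply _ MeasurableSet.univ, Measure.restrict_univ]
  calc ∫⁻ θ in Set.Ioo 0 (π / 2), ENNReal.ofReal (sin θ ^ (d - 1)) ≤
      ∫⁻ _θ in Set.Ioo 0 (π / 2), 1 := by
        apply setLIntegral_mono' measurableSet_Ioo
        intro θ hθ
        rw [ENNReal.ofReal_le_one]
        apply pow_le_one₀ _ (sin_le_one θ)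
        exact sin_nonneg_of_nonneg_of_le_pi hθ.1.le (by linarith [hθ.2, pi_pos])
    _ < ∞ := by
        rw [setLIntegral_one, Real.volume_Ioo]
        exact ENNReal.ofReal_lt_top

lemma measurable_density (d : ℕ) : Measurable fun θ => ENNReal.ofReal (sin θ ^ (d - 1)) := by
  fun_prop

/-- the window where the packet is large -/
def window : Set ℝ := Set.Icc (3 * π / 8) (7 * π / 16)

lemma raw_window_ne (d : ℕ) : rawMeasure d window ≠ 0 := by
  intro h
  have h1 : volume.restrict (Set.Ioo 0 (π / 2)) ≪ rawMeasure d := by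
    apply withDensity_absolutelyContinuous' (measurable_density d).aemeasurable
    filter_upwards [ae_restrict_mem measurableSet_Ioo] with θ hθ
    have : 0 < sin θ := sin_pos_of_pos_of_lt_pi hθ.1 (by linarith [hθ.2, pi_pos])
    simp only [ne_eq, ENNReal.ofReal_eq_zero, not_le]
    positivity
  have h2 := h1 h
  rw [Measure.restrict_apply (by exact measurableSet_Icc), Set.inter_eq_left.2, window,
    Real.volume_Icc, ENNReal.ofReal_eq_zero] at h2
  · linarith [pi_pos]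
  · intro θ hθ
    exact ⟨by linarith [hθ.1, pi_pos], by linarith [hθ.2, pi_pos]⟩

lemma raw_univ_ne (d : ℕ) : rawMeasure d Set.univ ≠ 0 := by
  intro h
  exact raw_window_ne d (measure_mono_null (Set.subset_univ _) h)

instance (d : ℕ) : IsProbabilityMeasure (radialMeasure d) := by
  constructor
  unfold radialMeasure
  rw [Measure.smul_apply, smul_eq_mul, ENNReal.inv_mul_cancel (raw_univ_ne d) (raw_univ_lt d).ne]

lemma window_pos (d : ℕ) : radialMeasure d window ≠ 0 := by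
  unfold radialMeasure
  rw [Measure.smul_apply, smul_eq_mul]
  exact mul_ne_zero (ENNReal.inv_ne_zero.2 (raw_univ_lt d).ne) (raw_window_ne d)

/-! ### the lower bound -/

lemma maximal_ge (e : ℕ) {ψ : ℝ → ℝ} (hψ : ψ ∈ symbols) {M : ℕ}
    (hM : 16 + Q65.GP.C1 e ≤ M) {θ : ℝ} (hθ : θ ∈ window) :
    ENNReal.ofReal ((M : ℝ) / 4) ≤ ⨆ t ∈ Set.Ico (0:ℝ) (2 * π),
      ‖evolve (e + 2) ψ (Finset.Ico (4 * M ^ 2) (4 * M ^ 2 + M)) (fun _ => 1) t θ‖ₑ := by
  have hs0 : 0 < sin θ := sin_pos_of_pos_of_lt_pi (by linarith [hθ.1, pi_pos])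
    (by linarith [hθ.2, pi_pos])
  obtain ⟨t, ht0, ht1, ht⟩ := Q65.GP.packet e ψ (symbols_bound hψ) hM (φ := π / 2 - θ)
    (by linarith [hθ.2]) (by linarith [hθ.1])
  refine le_trans ?_ (le_iSup₂ (f := fun t (_ : t ∈ Set.Ico (0:ℝ) (2 * π)) =>
    ‖evolve (e + 2) ψ (Finset.Ico (4 * M ^ 2) (4 * M ^ 2 + M)) (fun _ => 1) t θ‖ₑ) t ⟨ht0, ht1⟩)
  rw [← ofReal_norm]
  apply ENNReal.ofReal_le_ofReal
  have h1 : ∑ j ∈ Finset.range M,
      Complex.exp (-((t * ψ (√(Q65.GP.mu2 (e + 2) (4 * M ^ 2 + j))) : ℝ) * Complex.I)) *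
        (Q65.GP.V e (4 * M ^ 2 + j) (π / 2 - θ) : ℂ) = ((sin θ ^ Q65.GP.la e : ℝ) : ℂ) *
      evolve (e + 2) ψ (Finset.Ico (4 * M ^ 2) (4 * M ^ 2 + M)) (fun _ => 1) t θ := by
    unfold evolve
    rw [Finset.sum_Ico_eq_sum_range, Nat.add_sub_cancel_left, Finset.mul_sum]
    refine Finset.sum_congr rfl fun j _ => ?_
    rw [Q65.GP.V_eq_u, zonal_eq, freq_eq, mul_comm Complex.I]
    push_cast
    ring
  rw [h1, norm_mul, Complex.norm_real, norm_eq_abs, abs_of_nonneg (by positivity)] at ht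
  refine ht.trans ?_
  have h2 : sin θ ^ Q65.GP.la e ≤ 1 := rpow_le_one hs0.le (sin_le_one θ) (Q65.GP.la_pos e).le
  nlinarith [norm_nonneg (evolve (e + 2) ψ (Finset.Ico (4 * M ^ 2) (4 * M ^ 2 + M))
    (fun _ => 1) t θ)]

lemma eLpNorm_ge (e : ℕ) {ψ : ℝ → ℝ} (hψ : ψ ∈ symbols) {p : ℝ≥0∞} (hp : 1 ≤ p) {M : ℕ}
    (hM : 16 + Q65.GP.C1 e ≤ M) :
    ENNReal.ofReal ((M : ℝ) / 4) * radialMeasure (e + 2) window ≤
    eLpNorm (fun θ => ⨆ t ∈ Set.Ico (0:ℝ) (2 * π),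
      ‖evolve (e + 2) ψ (Finset.Ico (4 * M ^ 2) (4 * M ^ 2 + M)) (fun _ => 1) t θ‖ₑ) p
      (radialMeasure (e + 2)) := by
  have hwin : MeasurableSet window := measurableSet_Icc
  have h1 : eLpNorm (window.indicator fun _ : ℝ => (M : ℝ) / 4) p (radialMeasure (e + 2)) ≤
    eLpNorm (fun θ => ⨆ t ∈ Set.Ico (0:ℝ) (2 * π),
      ‖evolve (e + 2) ψ (Finset.Ico (4 * M ^ 2) (4 * M ^ 2 + M)) (fun _ => 1) t θ‖ₑ) p
      (radialMeasure (e + 2)) := by
    apply eLpNorm_mono_enorm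
    intro θ
    by_cases h : θ ∈ window
    · rw [Set.indicator_of_mem h, enorm_eq_self, Real.enorm_of_nonneg (by positivity)]
      exact maximal_ge e hψ hM h
    · rw [Set.indicator_of_notMem h]
      simp
  refine le_trans ?_ h1
  have h2 : eLpNorm (window.indicator fun _ : ℝ => (M : ℝ) / 4) 1 (radialMeasure (e + 2)) ≤
      eLpNorm (window.indicator fun _ : ℝ => (M : ℝ) / 4) p (radialMeasure (e + 2)) :=
    eLpNorm_le_eLpNorm_of_exponent_le hp
      ((aestronglyMeasurable_const).indicator hwin)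
  refine le_trans ?_ h2
  rw [eLpNorm_indicator_const hwin one_ne_zero ENNReal.one_ne_top,
    Real.enorm_of_nonneg (by positivity)]
  simp

/-! ### the upper bound -/

lemma freq_bound (e M j : ℕ) (hM : 1 ≤ M) (hj : j < M) :
    1 + freq (e + 2) (4 * M ^ 2 + j) ^ 2 ≤ 51 * (e + 3) * (M:ℝ) ^ 4 := by
  rw [freq_sq]
  unfold Q65.GP.mu2
  have hMR : (1:ℝ) ≤ M := by exact_mod_cast hM
  have hjR : (j:ℝ) ≤ M := by exact_mod_cast hj.le
  have hj0 : (0:ℝ) ≤ j := by positivity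
  have he : (0:ℝ) ≤ e := by positivity
  have hM2 : (M:ℝ) ≤ M ^ 2 := by nlinarith
  push_cast
  set n : ℝ := 4 * (M:ℝ) ^ 2 + j with hn
  have hn1 : n ≤ 5 * (M:ℝ) ^ 2 := by rw [hn]; linarith
  have hn0 : 1 ≤ n := by rw [hn]; nlinarith
  have h1 : 2 * n * (2 * n + (e + 2) - 1) ≤ 2 * (e + 3) * n ^ 2 := by nlinarith [mul_nonneg he (by linarith : 0 ≤ n)]
  have h2 : n ^ 2 ≤ (5 * (M:ℝ) ^ 2) ^ 2 := pow_le_pow_left₀ (by linarith) hn1 2
  have h3 : (1:ℝ) ≤ (M:ℝ) ^ 4 := one_le_pow₀ hMR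
  nlinarith [mul_nonneg he (by positivity : (0:ℝ) ≤ (M:ℝ) ^ 4)]

lemma bessel_le (e : ℕ) (α : ℝ) {β : ℝ} (hβ0 : 0 ≤ β) (hβ : α ≤ β) {M : ℕ} (hM : 1 ≤ M) :
    eLpNorm (bessel (e + 2) α (Finset.Ico (4 * M ^ 2) (4 * M ^ 2 + M)) (fun _ => 1)) 2
      (radialMeasure (e + 2)) ^ 2 ≤ (rawMeasure (e + 2) Set.univ)⁻¹ *
      ENNReal.ofReal (Q65.GP.C0 e * (M * (51 * (e + 3) * (M:ℝ) ^ 4) ^ β)) := by
  set s := Finset.Ico (4 * M ^ 2) (4 * M ^ 2 + M) with hs
  set a : ℕ → ℝ := fun k => (1 + freq (e + 2) k ^ 2) ^ (α / 2) with ha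
  have h1 : ∀ θ, bessel (e + 2) α s (fun _ => 1) θ =
      ((∑ k ∈ s, a k * Q65.GP.u (e + 2) k θ : ℝ) : ℂ) := by
    intro θ
    unfold bessel
    rw [Complex.ofReal_sum]
    refine Finset.sum_congr rfl fun k _ => ?_
    rw [zonal_eq, ha, one_mul]
    push_cast
    ring
  have h2 := eLpNorm_nnreal_pow_eq_lintegral (μ := radialMeasure (e + 2)) (p := 2)
    (f := bessel (e + 2) α s (fun _ => 1)) (by norm_num)
  have h3 : eLpNorm (bessel (e + 2) α s (fun _ => 1)) 2 (radialMeasure (e + 2)) ^ 2 =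
      ∫⁻ θ, ENNReal.ofReal ((∑ k ∈ s, a k * Q65.GP.u (e + 2) k θ) ^ 2)
        ∂(radialMeasure (e + 2)) := by
    have h4 : (((2 : ℝ≥0) : ℝ≥0∞)) = 2 := by norm_num
    have h5 : ((2 : ℝ≥0) : ℝ) = ((2 : ℕ) : ℝ) := by norm_num
    rw [h4, h5, ENNReal.rpow_natCast] at h2
    rw [h2]
    refine lintegral_congr fun θ => ?_
    rw [ENNReal.rpow_natCast, h1, ← ofReal_norm, Complex.norm_real, norm_eq_abs,
      ← ENNReal.ofReal_pow (abs_nonneg _), sq_abs]
  rw [h3]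
  unfold radialMeasure
  rw [lintegral_smul_measure, smul_eq_mul]
  gcongr
  have hcont : Continuous fun θ => (∑ k ∈ s, a k * Q65.GP.u (e + 2) k θ) ^ 2 := by
    apply Continuous.pow
    refine continuous_finsetSum _ fun k _ => ?_
    exact continuous_const.mul (Q65.GP.continuous_u (e + 2) k)
  unfold rawMeasure
  rw [lintegral_withDensity_eq_lintegral_mul _ (measurable_density _)
    (hcont.measurable.ennreal_ofReal)]
  have h6 : ∫⁻ θ in Set.Ioo 0 (π / 2), ((fun θ => ENNReal.ofReal (sin θ ^ (e + 2 - 1))) *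
      fun θ => ENNReal.ofReal ((∑ k ∈ s, a k * Q65.GP.u (e + 2) k θ) ^ 2)) θ =
      ENNReal.ofReal (∫ θ in (0:ℝ)..(π / 2), sin θ ^ (e + 1) *
        (∑ k ∈ s, a k * Q65.GP.u (e + 2) k θ) ^ 2) := by
    have hc2 : Continuous fun θ => sin θ ^ (e + 1) *
        (∑ k ∈ s, a k * Q65.GP.u (e + 2) k θ) ^ 2 := by fun_prop
    rw [intervalIntegral.integral_of_le (by positivity), integral_Ioc_eq_integral_Ioo,
      ofReal_integral_eq_lintegral_ofReal]
    · apply setLIntegral_congr_fun measurableSet_Ioo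
      intro θ hθ
      have : 0 ≤ sin θ := sin_nonneg_of_nonneg_of_le_pi hθ.1.le (by linarith [hθ.2, pi_pos])
      simp only [Pi.mul_apply]
      rw [← ENNReal.ofReal_mul (by positivity)]
      rfl
    · exact (hc2.integrableOn_Icc (a := 0) (b := π / 2)).mono_set Set.Ioo_subset_Icc_self
    · filter_upwards [ae_restrict_mem measurableSet_Ioo] with θ hθ
      have : 0 ≤ sin θ := sin_nonneg_of_nonneg_of_le_pi hθ.1.le (by linarith [hθ.2, pi_pos])
      simp only [Pi.zero_apply]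
      positivity
  rw [h6]
  apply ENNReal.ofReal_le_ofReal
  refine (Q65.GP.mass_sum e s a fun k hk => ?_).trans ?_
  · have := (Finset.mem_Ico.1 hk).1
    have h7 : 1 ≤ M ^ 2 := Nat.one_le_pow _ _ hM
    omega
  · apply mul_le_mul_of_nonneg_left _ (Q65.GP.C0_pos e).le
    rw [hs, Finset.sum_Ico_eq_sum_range, Nat.add_sub_cancel_left]
    have h8 : ∀ j ∈ Finset.range M, a (4 * M ^ 2 + j) ^ 2 ≤ (51 * (e + 3) * (M:ℝ) ^ 4) ^ β := by
      intro j hj
      have h9 : (1:ℝ) ≤ 1 + freq (e + 2) (4 * M ^ 2 + j) ^ 2 := by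
        linarith [sq_nonneg (freq (e + 2) (4 * M ^ 2 + j))]
      have h10 : a (4 * M ^ 2 + j) ^ 2 = (1 + freq (e + 2) (4 * M ^ 2 + j) ^ 2) ^ α := by
        rw [ha]
        simp only
        rw [← rpow_natCast, ← rpow_mul (by linarith)]
        congr 1
        push_cast
        ring
      rw [h10]
      refine (rpow_le_rpow_of_exponent_le h9 hβ).trans ?_
      exact rpow_le_rpow (by linarith) (freq_bound e M j hM (Finset.mem_range.1 hj)) hβ0
    calc _ ≤ ∑ _j ∈ Finset.range M, (51 * (e + 3) * (M:ℝ) ^ 4) ^ β := Finset.sum_le_sum h8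
      _ = _ := by simp

lemma not_maximal (e : ℕ) {ψ : ℝ → ℝ} (hψ : ψ ∈ symbols) {p : ℝ≥0∞} (hp : 1 ≤ p) {α : ℝ}
    (hα : α < 1 / 4) : ¬ MaximalEstimate (e + 2) ψ p α := by
  rintro ⟨C, hC⟩
  set β : ℝ := max α 0 with hβ
  have hβ0 : 0 ≤ β := le_max_right _ _
  have hβα : α ≤ β := le_max_left _ _
  have hβ1 : β < 1 / 4 := max_lt hα (by norm_num)
  set w := radialMeasure (e + 2) window with hw
  set κ := (rawMeasure (e + 2) Set.univ)⁻¹ with hκ
  have hwt : w ≠ ∞ := measure_ne_top _ _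
  have hκt : κ ≠ ∞ := ENNReal.inv_ne_top.2 (raw_univ_ne _)
  have hwpos : 0 < w.toReal := ENNReal.toReal_pos (window_pos _) hwt
  set K : ℝ := 51 * (e + 3) with hK
  have hK0 : 0 < K := by positivity
  set A : ℝ := 16 * ((C:ℝ) ^ 2 * (κ.toReal * (Q65.GP.C0 e * K ^ β))) / w.toReal ^ 2 with hA
  have hmain : ∀ M : ℕ, 16 + Q65.GP.C1 e ≤ M → 1 ≤ M → (M:ℝ) ^ (1 - 4 * β) ≤ A := by
    intro M hM hM1
    have hMR : (0:ℝ) < M := by exact_mod_cast hM1
    have h1 := (eLpNorm_ge e hψ hp hM).trans (hC _ _)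
    have h2 := bessel_le e α hβ0 hβα hM1
    have h3 : (ENNReal.ofReal ((M : ℝ) / 4) * w) ^ 2 ≤
        (C:ℝ≥0∞) ^ 2 * (κ * ENNReal.ofReal (Q65.GP.C0 e * (M * (K * (M:ℝ) ^ 4) ^ β))) := by
      calc _ ≤ ((C:ℝ≥0∞) * eLpNorm (bessel (e + 2) α (Finset.Ico (4 * M ^ 2) (4 * M ^ 2 + M))
            (fun _ => 1)) 2 (radialMeasure (e + 2))) ^ 2 := by gcongr
        _ = (C:ℝ≥0∞) ^ 2 * eLpNorm (bessel (e + 2) α (Finset.Ico (4 * M ^ 2) (4 * M ^ 2 + M))
            (fun _ => 1)) 2 (radialMeasure (e + 2)) ^ 2 := by rw [mul_pow]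
        _ ≤ _ := by gcongr
    have hC0 := Q65.GP.C0_pos e
    have h4 := ENNReal.toReal_mono (ENNReal.mul_ne_top (by simp)
      (ENNReal.mul_ne_top hκt ENNReal.ofReal_ne_top)) h3
    rw [ENNReal.toReal_pow, ENNReal.toReal_mul, ENNReal.toReal_mul, ENNReal.toReal_mul,
      ENNReal.toReal_pow, ENNReal.toReal_ofReal (by positivity),
      ENNReal.toReal_ofReal (by positivity), ENNReal.coe_toReal,
      mul_rpow hK0.le (by positivity), ← rpow_natCast (M:ℝ) 4, ← rpow_mul hMR.le] at h4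
    have h5 : (M:ℝ) ^ (1 - 4 * β) * ((M:ℝ) * (M:ℝ) ^ (((4:ℕ):ℝ) * β)) = (M:ℝ) ^ 2 := by
      rw [← mul_assoc, mul_comm _ (M:ℝ), mul_assoc, ← rpow_add hMR]
      have : (1 - 4 * β + ((4:ℕ):ℝ) * β) = 1 := by push_cast; ring
      rw [this, rpow_one, sq]
    rw [hA, le_div_iff₀ (by positivity)]
    have h6 : 0 < (M:ℝ) * (M:ℝ) ^ (((4:ℕ):ℝ) * β) := by positivity
    refine le_of_mul_le_mul_right ?_ h6
    calc (M:ℝ) ^ (1 - 4 * β) * w.toReal ^ 2 * ((M:ℝ) * (M:ℝ) ^ (((4:ℕ):ℝ) * β)) =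
        ((M:ℝ) ^ (1 - 4 * β) * ((M:ℝ) * (M:ℝ) ^ (((4:ℕ):ℝ) * β))) * w.toReal ^ 2 := by ring
      _ = 16 * ((M:ℝ) / 4 * w.toReal) ^ 2 := by rw [h5]; ring
      _ ≤ 16 * ((C:ℝ) ^ 2 * (κ.toReal * (Q65.GP.C0 e *
          (M * (K ^ β * (M:ℝ) ^ (((4:ℕ):ℝ) * β)))))) := by linarith
      _ = _ := by ring
  have htend : Filter.Tendsto (fun M : ℕ => (M:ℝ) ^ (1 - 4 * β)) Filter.atTop Filter.atTop :=
    (tendsto_rpow_atTop (by linarith)).comp tendsto_natCast_atTop_atTop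
  have hev := (htend.eventually_gt_atTop A).and
    ((tendsto_natCast_atTop_atTop.eventually_ge_atTop (16 + Q65.GP.C1 e)).and
      (Filter.eventually_ge_atTop 1))
  obtain ⟨M, hM1, hM2, hM3⟩ := hev.exists
  exact absurd (hmain M hM2 hM3) (not_le.2 hM1)

lemma eigen_deriv (e k : ℕ) {θ : ℝ} (h : 0 < sin θ) :
    iteratedDeriv 2 (zonal (e + 2) k) θ +
      (((e + 2 : ℕ) : ℝ) - 1) * (cos θ / sin θ) * deriv (zonal (e + 2) k) θ =
      -(freq (e + 2) k ^ 2) * zonal (e + 2) k θ := by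
  have h1 : deriv (Q65.GP.u (e + 2) k) = Q65.GP.u' (e + 2) k :=
    funext fun θ => (Q65.GP.hasDerivAt_u (e + 2) k θ).deriv
  have h2 : iteratedDeriv 2 (Q65.GP.u (e + 2) k) = Q65.GP.u'' (e + 2) k := by
    rw [iteratedDeriv_succ, iteratedDeriv_one, h1]
    exact funext fun θ => (Q65.GP.hasDerivAt_u' (e + 2) k θ).deriv
  rw [zonal_fun_eq, h1, h2, freq_sq]
  have h3 := Q65.GP.eigen_mul (e + 2) k θ
  field_simp
  linear_combination h3

/-- Failure of the radial maximal estimate on `P^d(ℝ)` below regularity `1/4`. For `d ≥ 2` the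
functions `zonal d k` are even about `π/2`, solve the radial eigenvalue equation of the
Laplacian with eigenvalue `-(freq d k)²` and are orthogonal; for each of the three dispersion
relations, every `1 ≤ p ≤ ∞` and every `α < 1/4`, the maximal estimate fails already for finite
combinations of them. -/
theorem result (d : ℕ) (hd : 2 ≤ d) :
    (∀ (k : ℕ) (θ : ℝ), zonal d k (π - θ) = zonal d k θ) ∧
    (∀ (k : ℕ) (θ : ℝ), 0 < θ → θ < π →
      iteratedDeriv 2 (zonal d k) θ + ((d : ℝ) - 1) * (cos θ / sin θ) * deriv (zonal d k) θ =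
        -(freq d k ^ 2) * zonal d k θ) ∧
    (∀ k l : ℕ, k ≠ l →
      ∫ θ in (0:ℝ)..(π / 2), zonal d k θ * zonal d l θ * sin θ ^ (d - 1) = 0) ∧
    ∀ ψ ∈ symbols, ∀ p : ℝ≥0∞, 1 ≤ p → ∀ α : ℝ, α < 1 / 4 → ¬ MaximalEstimate d ψ p α := by
  obtain ⟨e, rfl⟩ : ∃ e, d = e + 2 := ⟨d - 2, by omega⟩
  refine ⟨fun k θ => ?_, fun k θ h0 h1 => ?_, fun k l hkl => ?_, fun ψ hψ p hp α hα => ?_⟩
  · rw [zonal_eq, zonal_eq, Q65.GP.u_symm]
  · exact eigen_deriv e k (sin_pos_of_pos_of_lt_pi h0 h1)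
  · have h1 : ∀ θ : ℝ, zonal (e + 2) k θ * zonal (e + 2) l θ * sin θ ^ (e + 2 - 1) =
        sin θ ^ (e + 1) * (Q65.GP.u (e + 2) k θ * Q65.GP.u (e + 2) l θ) := by
      intro θ
      rw [zonal_eq, zonal_eq, show e + 2 - 1 = e + 1 by omega]
      ring
    simp_rw [h1]
    exact Q65.GP.orthogonal e hkl
  · exact not_maximal e hψ hp hα

end Pool.Agent.Results.MP_6a2c25_an.MaximalFailure
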